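import Pool.Agent.Helper38.SEY.Good

/-!
Block LINK (helper38) of the project SEY: Tutte's linking theorem and preservation.
-/

set_option autoImplicit false

namespace SEY

open Finset

variable {E : Type} [Fintype E] [DecidableEq E]

theorem linking_aux (n : ℕ) : ∀ (M : BM E) (X Y : Finset E), X ⊆ M.S → Y ⊆ M.S → Disjoint X Y →
    ∀ k : ℕ, (∀ A, X ⊆ A → A ⊆ M.S → Disjoint A Y → k ≤ M.lam A) → (M.S \ (X ∪ Y)).card = n →
    ∃ C D : Finset E, Disjoint C D ∧ Disjoint C (X ∪ Y) ∧ Disjoint D (X ∪ Y) ∧
      X ∪ Y ∪ C ∪ D = M.S ∧ k ≤ ((M.con C).del D).lam X := by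
  induction n with
  | zero =>
    intro M X Y hX hY hd k h hn
    rw [Finset.card_eq_zero, Finset.sdiff_eq_empty_iff_subset] at hn
    refine ⟨∅, ∅, Finset.disjoint_empty_left _, Finset.disjoint_empty_left _,
      Finset.disjoint_empty_left _, ?_, ?_⟩
    · rw [Finset.union_empty, Finset.union_empty]
      exact Finset.Subset.antisymm (Finset.union_subset hX hY) hn
    · rw [BM.con_empty, BM.del_empty]
      exact h X (Finset.Subset.refl _) hX hd
  | succ n ih =>
    intro M X Y hX hY hd k h hn
    have hne : (M.S \ (X ∪ Y)).Nonempty := by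
      rw [← Finset.card_pos]; omega
    obtain ⟨e, he⟩ := hne
    have heS : e ∈ M.S := (Finset.mem_sdiff.1 he).1
    have heX : e ∉ X := fun h' => (Finset.mem_sdiff.1 he).2 (Finset.mem_union_left _ h')
    have heY : e ∉ Y := fun h' => (Finset.mem_sdiff.1 he).2 (Finset.mem_union_right _ h')
    have hX' : X ⊆ M.S \ {e} := fun x hx => Finset.mem_sdiff.2 ⟨hX hx, fun h' => heX (by
      rw [Finset.mem_singleton] at h'; exact h' ▸ hx)⟩
    have hY' : Y ⊆ M.S \ {e} := fun x hx => Finset.mem_sdiff.2 ⟨hY hx, fun h' => heY (by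
      rw [Finset.mem_singleton] at h'; exact h' ▸ hx)⟩
    have hcard : ((M.S \ {e}) \ (X ∪ Y)).card = n := by
      have h1 : (M.S \ {e}) \ (X ∪ Y) = (M.S \ (X ∪ Y)).erase e := by
        ext x
        simp only [Finset.mem_sdiff, Finset.mem_singleton, Finset.mem_erase]
        tauto
      rw [h1, Finset.card_erase_of_mem he, hn]
      rfl
    have hset : ∀ C D : Finset E, X ∪ Y ∪ C ∪ D = M.S \ {e} → X ∪ Y ∪ C ∪ ({e} ∪ D) = M.S ∧
        X ∪ Y ∪ ({e} ∪ C) ∪ D = M.S := by
      intro C D hCD
      have h1 : M.S = insert e (M.S \ {e}) := by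
        ext x
        simp only [Finset.mem_insert, Finset.mem_sdiff, Finset.mem_singleton]
        constructor
        · intro hx
          by_cases hxe : x = e
          · exact Or.inl hxe
          · exact Or.inr ⟨hx, hxe⟩
        · rintro (hx | hx)
          · rw [hx]; exact heS
          · exact hx.1
      rw [h1, ← hCD]
      constructor
      · ext x
        simp only [Finset.mem_insert, Finset.mem_union, Finset.mem_singleton]
        tauto
      · ext x
        simp only [Finset.mem_insert, Finset.mem_union, Finset.mem_singleton]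
        tauto
    by_cases h1 : ∀ A, X ⊆ A → A ⊆ (M.del {e}).S → Disjoint A Y → k ≤ (M.del {e}).lam A
    · obtain ⟨C, D, hCD, hC, hD, hS, hk⟩ := ih (M.del {e}) X Y hX' hY' hd k h1 hcard
      have heC : e ∉ C := by
        intro h'
        have : e ∈ (M.del {e}).S := by
          rw [← hS]
          simp only [Finset.mem_union]
          tauto
        exact (Finset.mem_sdiff.1 this).2 (Finset.mem_singleton_self e)
      refine ⟨C, {e} ∪ D, ?_, hC, ?_, (hset C D hS).1, ?_⟩
      · rw [Finset.disjoint_union_right]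
        exact ⟨Finset.disjoint_singleton_right.2 heC, hCD⟩
      · rw [Finset.disjoint_union_left]
        exact ⟨Finset.disjoint_singleton_left.2 (Finset.mem_sdiff.1 he).2, hD⟩
      · rw [BM.del_con M (Finset.disjoint_singleton_left.2 heC), BM.del_del] at hk
        exact hk
    · by_cases h2 : ∀ A, X ⊆ A → A ⊆ (M.con {e}).S → Disjoint A Y → k ≤ (M.con {e}).lam A
      · obtain ⟨C, D, hCD, hC, hD, hS, hk⟩ := ih (M.con {e}) X Y hX' hY' hd k h2 hcard
        have heD : e ∉ D := by
          intro h'
          have : e ∈ (M.con {e}).S := by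
            rw [← hS]
            simp only [Finset.mem_union]
            tauto
          exact (Finset.mem_sdiff.1 this).2 (Finset.mem_singleton_self e)
        refine ⟨{e} ∪ C, D, ?_, ?_, hD, (hset C D hS).2, ?_⟩
        · rw [Finset.disjoint_union_left]
          exact ⟨Finset.disjoint_singleton_left.2 heD, hCD⟩
        · rw [Finset.disjoint_union_left]
          exact ⟨Finset.disjoint_singleton_left.2 (Finset.mem_sdiff.1 he).2, hC⟩
        · rw [BM.con_con] at hk
          exact hk
      · exfalso
        push Not at h1 h2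
        obtain ⟨A, hXA, hAS, hAY, hA⟩ := h1
        obtain ⟨B, hXB, hBS, hBY, hB⟩ := h2
        have heA : e ∉ A := fun h' =>
          (Finset.mem_sdiff.1 (hAS h')).2 (Finset.mem_singleton_self e)
        have heB : e ∉ B := fun h' =>
          (Finset.mem_sdiff.1 (hBS h')).2 (Finset.mem_singleton_self e)
        have hu := M.uncross heS heA heB
        have h3 : k ≤ M.lam (A ∩ B) := by
          refine h _ (Finset.subset_inter hXA hXB) ?_ ?_
          · exact (Finset.inter_subset_left).trans (hAS.trans Finset.sdiff_subset)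
          · exact Finset.disjoint_of_subset_left Finset.inter_subset_left hAY
        have h4 : k ≤ M.lam (insert e (A ∪ B)) := by
          refine h _ ((hXA.trans Finset.subset_union_left).trans (Finset.subset_insert _ _)) ?_ ?_
          · refine Finset.insert_subset heS (Finset.union_subset ?_ ?_)
            · exact hAS.trans Finset.sdiff_subset
            · exact hBS.trans Finset.sdiff_subset
          · rw [Finset.disjoint_insert_left, Finset.disjoint_union_left]
            exact ⟨heY, hAY, hBY⟩
        omega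

/-- Tutte's linking theorem. -/
theorem lk_linking (M : BM E) (X Y : Finset E) (hX : X ⊆ M.S) (hY : Y ⊆ M.S) (hd : Disjoint X Y)
    (k : ℕ) (h : ∀ A, X ⊆ A → A ⊆ M.S → Disjoint A Y → k ≤ M.lam A) :
    ∃ C D : Finset E, Disjoint C D ∧ Disjoint C (X ∪ Y) ∧ Disjoint D (X ∪ Y) ∧
      X ∪ Y ∪ C ∪ D = M.S ∧ k ≤ ((M.con C).del D).lam X :=
  linking_aux _ M X Y hX hY hd k h rfl

/-- Preservation: if the connectivity of `X` does not drop, contracted sets are skew to `X`. -/
theorem lk_preserve (M : BM E) (X C D : Finset E) (hX : X ⊆ M.S) (hC : C ⊆ M.S)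
    (hCX : Disjoint C X) (hDX : Disjoint D X) (h : M.lam X ≤ ((M.con C).del D).lam X) :
    (∀ f ∈ M.R, ∃ f' ∈ M.R, (∀ c ∈ C, f' c = 0) ∧ ∀ x ∈ X, f' x = f x) ∧
      ∀ g : E → ZMod 2, (∀ e, e ∉ X → g e = 0) → g ∈ ((M.con C).del D).R → g ∈ M.R := by
  have e1 := (M.con C).lam_del_add D X
  have e2 := M.r_con_add C ((M.con C).S \ D)
  have e3 := M.r_con_add C (X \ D)
  have e4 := M.r_con_add C (((M.con C).S \ X) \ D)
  have hXD : X \ D = X := Finset.sdiff_eq_self_of_disjoint hDX.symm
  rw [hXD] at e1 e3
  have e5 := M.lam_add_rk X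
  have e6 := M.r_submod (M.S \ X) (((M.con C).S \ D) ∪ C)
  have e7 : M.r ((M.S \ X) ∪ (((M.con C).S \ D) ∪ C)) = M.rk := by
    refine M.r_of_S_subset ?_
    intro e he
    simp only [BM.con_S, Finset.mem_union, Finset.mem_sdiff]
    by_cases hx : e ∈ X
    · right; left
      exact ⟨⟨he, fun hc => Finset.disjoint_left.1 hCX hc hx⟩,
        fun hd => Finset.disjoint_left.1 hDX hd hx⟩
    · left; exact ⟨he, hx⟩
  have e8 : M.r ((((M.con C).S \ X) \ D) ∪ C) ≤
      M.r ((M.S \ X) ∩ (((M.con C).S \ D) ∪ C)) := by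
    refine M.r_mono ?_
    intro e he
    simp only [BM.con_S, Finset.mem_union, Finset.mem_sdiff, Finset.mem_inter] at he ⊢
    rcases he with he | he
    · tauto
    · exact ⟨⟨hC he, fun hx => Finset.disjoint_left.1 hCX he hx⟩, Or.inr he⟩
  have e9 := M.r_union_le X C
  have hskew : M.r (X ∪ C) = M.r X + M.r C := by omega
  constructor
  · have hle : M.R.map (mask (X ∪ C)) ≤ M.R.map (mask X) ⊔ M.R.map (mask C) := by
      rintro _ ⟨f, hf, rfl⟩
      rw [Submodule.mem_sup]
      refine ⟨mask X f, ⟨f, hf, rfl⟩, mask C f, ⟨f, hf, rfl⟩, ?_⟩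
      ext e
      by_cases h1 : e ∈ X
      · have h2 : e ∉ C := fun hc => Finset.disjoint_left.1 hCX hc h1
        simp [h1, h2]
      · by_cases h2 : e ∈ C <;> simp [h1, h2]
    have hsup := Submodule.finrank_add_le_finrank_add_finrank (M.R.map (mask X))
      (M.R.map (mask C))
    have heq : M.R.map (mask (X ∪ C)) = M.R.map (mask X) ⊔ M.R.map (mask C) := by
      refine Submodule.eq_of_le_of_finrank_le hle ?_
      have : Module.finrank (ZMod 2) (M.R.map (mask (X ∪ C))) =
          Module.finrank (ZMod 2) (M.R.map (mask X)) +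
            Module.finrank (ZMod 2) (M.R.map (mask C)) := hskew
      omega
    intro f hf
    have h1 : mask X f ∈ M.R.map (mask (X ∪ C)) := by
      rw [heq]
      exact Submodule.mem_sup_left ⟨f, hf, rfl⟩
    obtain ⟨f', hf', h2⟩ := h1
    refine ⟨f', hf', fun c hc => ?_, fun x hx => ?_⟩
    · have h3 := congrFun h2 c
      have h4 : c ∉ X := fun hx => Finset.disjoint_left.1 hCX hc hx
      simpa [hc, h4] using h3
    · have h3 := congrFun h2 x
      simpa [hx] using h3
  · have hle : M.RIn X ≤ ((M.con C).del D).RIn X := by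
      rintro f ⟨hf, hf0⟩
      refine ⟨?_, hf0⟩
      rw [BM.mem_del]
      refine ⟨f, ⟨hf, fun e he => hf0 e fun hx => Finset.disjoint_left.1 hCX he hx⟩, ?_⟩
      refine mask_eq_self fun e he => ?_
      by_cases hx : e ∈ X
      · exfalso
        refine he ?_
        simp only [BM.con_S, Finset.mem_sdiff]
        exact ⟨⟨hX hx, fun hc => Finset.disjoint_left.1 hCX hc hx⟩,
          fun hd => Finset.disjoint_left.1 hDX hd hx⟩
      · exact hf0 e hx
    have g1 := M.lam_add_dR_eq_r X
    have g2 := ((M.con C).del D).lam_add_dR_eq_r X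
    rw [BM.r_del, hXD] at g2
    have heq : M.RIn X = ((M.con C).del D).RIn X := by
      refine Submodule.eq_of_le_of_finrank_le hle ?_
      show ((M.con C).del D).dR X ≤ M.dR X
      omega
    intro g hg0 hg
    have : g ∈ ((M.con C).del D).RIn X := ⟨hg, hg0⟩
    rw [← heq] at this
    exact this.1

end SEY
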