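import Pool.Agent.Helper38.SEY.Red
import Pool.Agent.Helper38.SEY.Lk

/-!
Block LINK (helper38) of the project SEY: the Delta lemma.
-/

set_option autoImplicit false

namespace SEY

open Finset

variable {E : Type} [Fintype E] [DecidableEq E]

/-- A base of a matroid. -/
theorem exists_base (N : BM E) : ∃ K ⊆ N.S, N.r K = N.rk ∧ N.r K = K.card := by
  have hne : (N.S.powerset.filter (fun K => N.r K = N.rk)).Nonempty :=
    ⟨N.S, Finset.mem_filter.2 ⟨Finset.mem_powerset_self _, N.r_S⟩⟩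
  obtain ⟨K, hK, hmin⟩ := Finset.exists_min_image _ (fun K => K.card) hne
  rw [Finset.mem_filter, Finset.mem_powerset] at hK
  refine ⟨K, hK.1, hK.2, ?_⟩
  by_contra hcard
  have h1 := N.r_add_dZ hK.1
  have h2 : 0 < N.dZ K := by omega
  rw [BM.dZ_pos_iff] at h2
  obtain ⟨z, hz, hz0, hzK⟩ := h2
  obtain ⟨e, he⟩ : ∃ e, z e ≠ 0 := by
    by_contra hcon
    push Not at hcon
    exact hz0 (funext hcon)
  have heK : e ∈ K := by
    by_contra h
    exact he (hzK e h)
  have h3 : insert e (K.erase e) = K := Finset.insert_erase heK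
  have h4 : N.r (insert e (K.erase e)) = N.r (K.erase e) := by
    rw [N.r_insert_eq_iff ((Finset.erase_subset _ _).trans hK.1) (hK.1 heK)
      (Finset.notMem_erase _ _)]
    exact ⟨z, hz, z_ne_zero.1 he, fun x hx => hzK x (by rwa [h3] at hx)⟩
  rw [h3] at h4
  have h5 := hmin (K.erase e) (Finset.mem_filter.2
    ⟨Finset.mem_powerset.2 ((Finset.erase_subset _ _).trans hK.1), by rw [← h4]; exact hK.2⟩)
  rw [Finset.card_erase_of_mem heK] at h5
  have h6 := Finset.card_pos.2 ⟨e, heK⟩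
  omega

/-- A nonzero cycle contains a circuit. -/
theorem exists_circ (M : BM E) {z : E → ZMod 2} (hz : z ∈ M.Z) (hz0 : z ≠ 0) :
    ∃ Q ⊆ spt z, Circ M Q := by
  classical
  have hne : ((spt z).powerset.filter (fun Q => Q ≠ ∅ ∧ (ind Q : E → ZMod 2) ∈ M.Z)).Nonempty := by
    refine ⟨spt z, Finset.mem_filter.2 ⟨Finset.mem_powerset_self _, ?_, ?_⟩⟩
    · rwa [Ne, spt_eq_empty]
    · rwa [ind_spt]
  obtain ⟨Q, hQ, hmin⟩ := Finset.exists_min_image _ (fun K => K.card) hne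
  rw [Finset.mem_filter, Finset.mem_powerset] at hQ
  refine ⟨Q, hQ.1, Finset.nonempty_iff_ne_empty.2 hQ.2.1, hQ.2.2, fun w hw hwQ => ?_⟩
  by_cases hw0 : w = 0
  · exact Or.inl hw0
  · right
    have h1 : spt w ⊆ Q := spt_subset.2 hwQ
    have h2 := hmin (spt w) (Finset.mem_filter.2
      ⟨Finset.mem_powerset.2 (h1.trans hQ.1), by rwa [Ne, spt_eq_empty], by rwa [ind_spt]⟩)
    have h3 := Finset.eq_of_subset_of_card_le h1 h2
    rw [← h3, ind_spt]

theorem circ_dZ (M : BM E) {Q : Finset E} (h : Circ M Q) : M.dZ Q = 1 := by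
  have h1 : 0 < M.dZ Q := by
    rw [BM.dZ_pos_iff]
    refine ⟨ind Q, h.2.1, fun h0 => ?_, fun e he => ind_of_notMem he⟩
    rw [ind_eq_zero] at h0
    exact (Finset.nonempty_iff_ne_empty.1 h.1) h0
  have h2 : M.ZIn Q ≤ Submodule.span (ZMod 2) {(ind Q : E → ZMod 2)} := by
    rintro z ⟨hz, hz0⟩
    rw [Submodule.mem_span_singleton]
    rcases h.2.2 z hz hz0 with rfl | rfl
    · exact ⟨0, zero_smul _ _⟩
    · exact ⟨1, one_smul _ _⟩
  have h3 := Submodule.finrank_mono h2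
  have h4 : Module.finrank (ZMod 2) (Submodule.span (ZMod 2) {(ind Q : E → ZMod 2)}) ≤ 1 := by
    simpa using finrank_span_le_card (R := ZMod 2) ({ind Q} : Set (E → ZMod 2))
  have h5 : M.dZ Q ≤ 1 := le_trans h3 h4
  omega

theorem circ_card (M : BM E) (hTC : M.TC) {Q : Finset E} (hQS : Q ⊆ M.S) (h : Circ M Q) :
    3 ≤ Q.card := by
  by_contra hlt
  have h1 := M.r_add_dZ hQS
  have h2 := circ_dZ M h
  have h3 := M.lam_le_r Q
  have h4 := hTC.2 Q hQS
  have h5 := Finset.card_sdiff_add_card_eq_card hQS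
  have h6 := hTC.1
  have h7 : Q.card ≤ 1 := by
    rcases h4.2 (by omega) with h8 | h8
    · exact h8
    · omega
  rcases h4.1 (by omega) with h8 | h8
  · exact (Finset.nonempty_iff_ne_empty.1 h.1) h8
  · rw [h8] at h7
    omega

/-- The Delta lemma. -/
theorem lk_delta (M : BM E) (h : M.TC) (W : Finset E) (hWS : W ⊆ M.S) (hW : M.lam W = 2)
    (hz : ∃ z ∈ M.Z, z ≠ 0 ∧ ∀ e ∈ W, z e = 0) :
    ∃ (d : Fin 3 → E) (C : Finset E), Function.Injective d ∧
      (∀ i, d i ∈ M.S ∧ d i ∉ W ∧ d i ∉ C) ∧ C ⊆ M.S ∧ Disjoint C W ∧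
      (∀ f ∈ M.R, (∀ c ∈ C, f c = 0) → f (d 0) + f (d 1) + f (d 2) = 0) ∧
      (∀ f ∈ M.R, ∃ f' ∈ M.R, (∀ c ∈ C, f' c = 0) ∧ ∀ x ∈ W, f' x = f x) ∧
      (∀ f ∈ M.R, (∀ c ∈ C, f c = 0) → (∀ i, f (d i) = 0) →
        ∃ g ∈ M.R, (∀ e, e ∉ W → g e = 0) ∧ ∀ x ∈ W, g x = f x) ∧
      (∀ p : Fin 3 → ZMod 2, p 0 + p 1 + p 2 = 0 →
        ∃ f ∈ M.R, (∀ c ∈ C, f c = 0) ∧ ∀ i, f (d i) = p i) := by
  obtain ⟨z, hzZ, hz0, hzW⟩ := hz
  obtain ⟨Q0, hQ0z, hQ0⟩ := exists_circ M hzZ hz0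
  have hQ0S : Q0 ⊆ M.S := hQ0z.trans (M.spt_subset_of_mem_Z hzZ)
  have hQ0W : Disjoint W Q0 := by
    rw [Finset.disjoint_left]
    intro e he he'
    exact mem_spt.1 (hQ0z he') (hzW e he)
  have hgood : GoodP M W Q0 := by
    refine ⟨hWS, hQ0S, hQ0W, hQ0, fun A hWA hAS hAQ => ?_⟩
    by_contra hlt
    have h1 := circ_card M h hQ0S hQ0
    have h2 := Finset.card_le_card hWA
    have h3 := M.lam_le_card W
    have h4 : Q0 ⊆ M.S \ A := fun e he =>
      Finset.mem_sdiff.2 ⟨hQ0S he, fun h' => Finset.disjoint_left.1 hAQ h' he⟩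
    have h5 := Finset.card_le_card h4
    rcases (h.2 A hAS).2 (by omega) with h6 | h6 <;> omega
  obtain ⟨M', Q, hmin, hG, hS'⟩ := good_red M W Q0 hgood
  obtain ⟨C, D, hC, hD, hCD, hM', hM'S⟩ := hmin.normal
  obtain ⟨hWS', hQS', hWQ, hQc, hlam⟩ := hG
  have hsub : ∀ e ∈ M'.S, e ∈ M.S ∧ e ∉ C ∧ e ∉ D := by
    intro e he
    rw [hM'S, Finset.mem_sdiff, Finset.mem_union] at he
    tauto
  have hCW : Disjoint C W := by
    rw [Finset.disjoint_left]
    intro e he he'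
    exact (hsub e (hWS' he')).2.1 he
  have hDW : Disjoint D W := by
    rw [Finset.disjoint_left]
    intro e he he'
    exact (hsub e (hWS' he')).2.2 he
  have hlW : 2 ≤ M'.lam W := hlam W (Finset.Subset.refl _) hWS' hWQ
  have hlW' : M'.lam W ≤ 2 := by rw [← hW]; exact hmin.lam_le W
  have hpres := lk_preserve M W C D hWS hC hCW hDW (by rw [hW, ← hM']; exact hlW)
  obtain ⟨P1, P2⟩ := hpres
  rw [← hM'] at P2
  have hSW : M'.S \ W = Q := by
    rw [hS', Finset.union_sdiff_left, Finset.sdiff_eq_self_of_disjoint hWQ.symm]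
  have hlQ : M'.lam Q = 2 := by
    rw [← hSW, BM.lam_compl]; omega
  have hdZQ := circ_dZ M' hQc
  have hrQ := M'.r_add_dZ hQS'
  have hdRQ := M'.lam_add_dR_eq_r Q
  obtain ⟨K, hKS, hK1, hK2⟩ := exists_base (M'.con W)
  have hKQ : K ⊆ Q := by rw [BM.con_S, hSW] at hKS; exact hKS
  have hrk : (M'.con W).rk = M'.dR Q := by
    have g1 := M'.rk_con_add W
    have g2 := M'.r_add_dR_sdiff W
    rw [hSW] at g2
    omega
  have hcK := Finset.card_sdiff_add_card_eq_card hKQ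
  have hc3 : (Q \ K).card = 3 := by omega
  obtain ⟨a, b, c, hab, hac, hbc, habc⟩ := Finset.card_eq_three.1 hc3
  have hmemd : ∀ e, e ∈ Q → e ∉ K → e = a ∨ e = b ∨ e = c := by
    intro e he he'
    have : e ∈ Q \ K := Finset.mem_sdiff.2 ⟨he, he'⟩
    rw [habc] at this
    simpa using this
  have haQ : a ∈ Q ∧ a ∉ K := Finset.mem_sdiff.1 (by rw [habc]; simp)
  have hbQ : b ∈ Q ∧ b ∉ K := Finset.mem_sdiff.1 (by rw [habc]; simp)
  have hcQ : c ∈ Q ∧ c ∉ K := Finset.mem_sdiff.1 (by rw [habc]; simp)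
  -- surjectivity on K
  have hsurj : ∀ f : E → ZMod 2, ∃ g ∈ (M'.con W).R, ∀ e ∈ K, g e = f e := by
    intro f
    have hdK : (M'.con W).dZ K = 0 := by
      have := (M'.con W).r_add_dZ hKS
      omega
    rw [BM.dZ_eq_zero_iff] at hdK
    have h1 : mask K f ∈ ((M'.con W).res K).R := by
      rw [BM.mem_R_iff]
      constructor
      · intro e he
        by_cases hK : e ∈ K
        · exact absurd (Finset.mem_inter.2 ⟨hKS hK, hK⟩) he
        · simp [hK]
      · intro w hw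
        rw [BM.mem_Z_res] at hw
        rw [hdK w hw.1 hw.2, dot_zero_right]
    rw [BM.mem_res'] at h1
    obtain ⟨-, g, hg, hg2⟩ := h1
    refine ⟨g, hg, fun e he => ?_⟩
    rw [hg2 e (Finset.mem_inter.2 ⟨hKS he, he⟩)]
    simp [he]
  -- rows of M give rows of M' and conversely
  have hdown : ∀ f ∈ M.R, (∀ e ∈ C, f e = 0) → mask M'.S f ∈ M'.R := by
    intro f hf hf0
    have h1 : mask ((M.con C).S \ D) f ∈ ((M.con C).del D).R := ⟨f, ⟨hf, hf0⟩, rfl⟩
    rw [hM']
    exact h1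
  have hup : ∀ g ∈ M'.R, ∃ f ∈ M.R, (∀ e ∈ C, f e = 0) ∧ ∀ e ∈ M'.S, f e = g e := by
    intro g hg
    rw [hM', BM.mem_del'] at hg
    obtain ⟨-, f, ⟨hf, hf0⟩, h2⟩ := hg
    refine ⟨f, hf, hf0, fun e he => h2 e ?_⟩
    rw [hM'] at he
    exact he
  have hWM' : ∀ e ∈ W, e ∈ M'.S := fun e he => hWS' he
  have hQM' : ∀ e ∈ Q, e ∈ M'.S := fun e he => hQS' he
  have hinj : Function.Injective (![a, b, c] : Fin 3 → E) := by
    intro i j hij
    fin_cases i <;> fin_cases j <;> first | rfl | (exfalso; simp at hij; tauto)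
  have hall : ∀ i, (![a, b, c] : Fin 3 → E) i ∈ Q ∧ (![a, b, c] : Fin 3 → E) i ∉ K := by
    intro i
    fin_cases i
    · exact haQ
    · exact hbQ
    · exact hcQ
  refine ⟨![a, b, c], C ∪ K, hinj, ?_, ?_, ?_, ?_, ?_, ?_, ?_⟩
  · intro i
    obtain ⟨h1, h2⟩ := hall i
    obtain ⟨h3, h4, h5⟩ := hsub _ (hQM' _ h1)
    refine ⟨h3, fun h6 => Finset.disjoint_left.1 hWQ h6 h1, fun h6 => ?_⟩
    rcases Finset.mem_union.1 h6 with h7 | h7
    · exact h4 h7
    · exact h2 h7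
  · exact Finset.union_subset hC (fun e he => (hsub e (hQM' e (hKQ he))).1)
  · rw [Finset.disjoint_union_left]
    refine ⟨hCW, ?_⟩
    rw [Finset.disjoint_left]
    intro e he he'
    exact Finset.disjoint_left.1 hWQ he' (hKQ he)
  · -- D1
    intro f hf hf0
    have h1 := hdown f hf (fun e he => hf0 e (Finset.mem_union_left _ he))
    have h2 := M'.dot_eq_zero h1 hQc.2.1
    rw [dot_ind] at h2
    have h3 : ∑ e ∈ Q, mask M'.S f e = ∑ e ∈ Q, f e :=
      Finset.sum_congr rfl (fun e he => by simp [hQM' e he])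
    rw [h3, ← Finset.sum_sdiff hKQ, habc,
      Finset.sum_eq_zero (s := K) (fun e he => hf0 e (Finset.mem_union_right _ he)), add_zero,
      Finset.sum_insert (by simp [hab, hac]), Finset.sum_pair hbc, ← add_assoc] at h2
    exact h2
  · -- D2
    intro f hf
    obtain ⟨f1, hf1, hf1C, hf1W⟩ := P1 f hf
    obtain ⟨g', hg', hgK⟩ := hsurj f1
    obtain ⟨g0, hg0, hg0C, hg0S⟩ := hup g' hg'.1
    refine ⟨f1 + g0, M.R.add_mem hf1 hg0, fun e he => ?_, fun x hx => ?_⟩
    · rw [Pi.add_apply]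
      rcases Finset.mem_union.1 he with h1 | h1
      · rw [hf1C e h1, hg0C e h1, add_zero]
      · rw [hg0S e (hQM' e (hKQ h1)), hgK e h1]
        exact z_add_self _
    · rw [Pi.add_apply, hf1W x hx, hg0S x (hWM' x hx), hg'.2 x hx, add_zero]
  · -- D3
    intro f hf hf0 hfd
    have h1 := hdown f hf (fun e he => hf0 e (Finset.mem_union_left _ he))
    have hfQ : ∀ e ∈ Q, f e = 0 := by
      intro e he
      by_cases hK : e ∈ K
      · exact hf0 e (Finset.mem_union_right _ hK)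
      · rcases hmemd e he hK with rfl | rfl | rfl
        · exact hfd 0
        · exact hfd 1
        · exact hfd 2
    have hsup : ∀ e, e ∉ W → mask M'.S f e = 0 := by
      intro e he
      by_cases hS : e ∈ M'.S
      · have hQ : e ∈ Q := by rw [← hSW]; exact Finset.mem_sdiff.2 ⟨hS, he⟩
        simp [hS, hfQ e hQ]
      · simp [hS]
    refine ⟨mask M'.S f, P2 _ hsup h1, hsup, fun x hx => ?_⟩
    simp [hWM' x hx]
  · -- D4
    intro p hp
    let hfun : E → ZMod 2 := fun e => if e = a then p 0 else if e = b then p 1 else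
      if e = c then p 2 else 0
    have hha : hfun a = p 0 := by simp [hfun]
    have hhb : hfun b = p 1 := by simp [hfun, hab.symm]
    have hhc : hfun c = p 2 := by simp [hfun, hac.symm, hbc.symm]
    have hhe : ∀ e, e ≠ a → e ≠ b → e ≠ c → hfun e = 0 := by
      intro e h1 h2 h3
      simp [hfun, h1, h2, h3]
    have hhK : ∀ e ∈ K, hfun e = 0 := by
      intro e he
      refine hhe e ?_ ?_ ?_
      · rintro rfl; exact haQ.2 he
      · rintro rfl; exact hbQ.2 he
      · rintro rfl; exact hcQ.2 he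
    have hsum : ∑ e ∈ Q, hfun e = 0 := by
      rw [← Finset.sum_sdiff hKQ, habc, Finset.sum_eq_zero (s := K) hhK, add_zero,
        Finset.sum_insert (by simp [hab, hac]), Finset.sum_pair hbc, ← add_assoc, hha, hhb, hhc]
      exact hp
    have h1 : hfun ∈ (M'.res Q).R := by
      rw [BM.mem_R_iff]
      constructor
      · intro e he
        have he' : e ∉ Q := fun h' => he (Finset.mem_inter.2 ⟨hQM' e h', h'⟩)
        refine hhe e ?_ ?_ ?_
        · rintro rfl; exact he' haQ.1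
        · rintro rfl; exact he' hbQ.1
        · rintro rfl; exact he' hcQ.1
      · intro w hw
        rw [BM.mem_Z_res] at hw
        rcases hQc.2.2 w hw.1 hw.2 with rfl | rfl
        · exact dot_zero_right _
        · rw [dot_ind]; exact hsum
    rw [BM.mem_res'] at h1
    obtain ⟨-, g, hg, hg2⟩ := h1
    obtain ⟨f, hf, hfC, hfS⟩ := hup g hg
    have hfQ : ∀ e ∈ Q, f e = hfun e := by
      intro e he
      rw [hfS e (hQM' e he), hg2 e (Finset.mem_inter.2 ⟨hQM' e he, he⟩)]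
    refine ⟨f, hf, fun e he => ?_, fun i => ?_⟩
    · rcases Finset.mem_union.1 he with h1 | h1
      · exact hfC e h1
      · rw [hfQ e (hKQ h1), hhK e h1]
    · fin_cases i
      · exact (hfQ a haQ.1).trans hha
      · exact (hfQ b hbQ.1).trans hhb
      · exact (hfQ c hcQ.1).trans hhc

end SEY
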