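import Pool.Agent.Helper38.SEY.Good

/-!
Block LINK (helper38) of the project SEY, module Outside: the complement of a set `W` with connectivity 2 in a
3-connected matroid contains a nonzero cycle if it has at least four elements.  API in Helper71/SEYApi.lean.

* `tc_coloop`: `M.TC`, `e ∈ M.S`: some cycle has `z e = 1`.  Otherwise the row space contains `ind {e}` (`BM.mem_R_iff`), so
  `M.dual.r {e} = 0` (or `BM.r_singleton_eq_zero_iff` for `M.dual`), so `M.lam {e} = M.dual.lam {e} ≤ M.dual.r {e} = 0` (`BM.lam_dual`,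
  `BM.lam_le_r`), so by TC `{e} = ∅` or `{e} = M.S`, but `4 ≤ M.S.card`.
* `tc_series`: `M.TC`, `e ≠ f` in `M.S`: some cycle has `z e ≠ z f`.  Otherwise `ind {e, f} ∈ M.R` (`BM.mem_R_iff`), so
  `1 ≤ M.dR {e, f}` (`BM.dR_pos_iff`), so by `BM.dual_r_add_dR` `M.dual.r {e, f} ≤ 1`, so `M.lam {e, f} ≤ 1`, contradiction to TC,
  as `{e, f}` has two and `M.S \ {e, f}` has at least two elements.
* `exists_cycle_outside'`: suppose not, then `M.dZ (M.S \ W) = 0`.  With `V = M.S \ W`:  `M.lam W + M.dZ W + M.dZ V = M.nul`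
  (`BM.lam_add_dZ`) and `M.dual.r V + M.dZ (M.S \ V) = M.nul` (`BM.dual_r_add_dZ`), so `M.dual.r V = 2`: the space `P := M.Z.map (mask V)` has
  dimension 2, so 4 elements, its dual space has 4 elements (`Module.card_eq_pow_finrank`).  The functionals `z ↦ z e` (`e ∈ V`) on `P` are nonzero
  (`tc_coloop`) and distinct (`tc_series`), so `V.card ≤ 3`, contradiction.
-/

set_option autoImplicit false

namespace SEY

open Finset

variable {E : Type} [Fintype E] [DecidableEq E]

theorem tc_coloop (M : BM E) (h : M.TC) {e : E} (he : e ∈ M.S) : ∃ z ∈ M.Z, z e = 1 := by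
  by_contra hcon
  push_neg at hcon
  have h1 : ∀ f ∈ M.dual.R, f e = 0 := fun z hz => z_ne_one.1 (hcon z hz)
  have h2 : M.dual.r {e} = 0 := M.dual.r_singleton_eq_zero_iff.2 h1
  have h3 : M.lam {e} = 0 := by
    have h3' := M.dual.lam_le_r {e}
    rw [M.lam_dual] at h3'
    omega
  have h4 := h.1
  rcases (h.2 {e} (Finset.singleton_subset_iff.2 he)).1 h3 with h5 | h5
  · exact absurd h5 (Finset.singleton_ne_empty e)
  · rw [← h5] at h4
    simp at h4

theorem tc_series (M : BM E) (h : M.TC) {e f : E} (he : e ∈ M.S) (hf : f ∈ M.S) (hef : e ≠ f) :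
    ∃ z ∈ M.Z, z e ≠ z f := by
  by_contra hcon
  push_neg at hcon
  have hsub : ({e, f} : Finset E) ⊆ M.S := by
    intro x hx
    rcases Finset.mem_insert.1 hx with rfl | hx
    · exact he
    · rw [Finset.mem_singleton.1 hx]
      exact hf
  have h1 : ind {e, f} ∈ M.R := by
    rw [M.mem_R_iff]
    refine ⟨fun x hx => ind_of_notMem (fun h' => hx (hsub h')), fun z hz => ?_⟩
    rw [ind_dot, Finset.sum_pair hef, hcon z hz, z_add_self]
  have h2 : 0 < M.dR {e, f} := by
    refine M.dR_pos_iff.2 ⟨ind {e, f}, h1, fun h0 => ?_, fun x hx => ind_of_notMem hx⟩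
    have h0' := ind_eq_zero.1 h0
    exact (Finset.insert_ne_empty e {f}) h0'
  have h3 := M.dual_r_add_dR hsub
  have h4 : ({e, f} : Finset E).card = 2 := Finset.card_pair hef
  have h5 := M.dual.lam_le_r {e, f}
  rw [M.lam_dual] at h5
  have h6 := (h.2 {e, f} hsub).2 (by omega)
  have h7 := h.1
  have h8 := Finset.card_sdiff_of_subset hsub
  omega

theorem exists_cycle_outside' (M : BM E) (h : M.TC) (W : Finset E) (hWS : W ⊆ M.S)
    (hW : M.lam W = 2) (hc : 4 ≤ (M.S \ W).card) :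
    ∃ z ∈ M.Z, z ≠ 0 ∧ ∀ e ∈ W, z e = 0 := by
  classical
  by_contra hcon
  push_neg at hcon
  have h0 : M.dZ (M.S \ W) = 0 := by
    rw [M.dZ_eq_zero_iff]
    intro z hz hz'
    by_contra hne
    obtain ⟨e, he, he'⟩ := hcon z hz hne
    exact he' (hz' e (fun h' => (Finset.mem_sdiff.1 h').2 he))
  have h1 := M.lam_add_dZ W
  have h2 := M.dual_r_add_dZ (M.S \ W)
  rw [Finset.sdiff_sdiff_eq_self hWS] at h2
  have h3 : M.dual.r (M.S \ W) = 2 := by omega
  obtain ⟨V, hV⟩ : ∃ V, V = M.S \ W := ⟨_, rfl⟩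
  rw [← hV] at h3 hc
  have hVS : V ⊆ M.S := by rw [hV]; exact Finset.sdiff_subset
  obtain ⟨P, hP⟩ : ∃ P : Submodule (ZMod 2) (E → ZMod 2), P = M.dual.R.map (mask V) := ⟨_, rfl⟩
  have h4 : Module.finrank (ZMod 2) P = 2 := by rw [hP]; exact h3
  haveI : Finite (Module.Dual (ZMod 2) P) := Module.finite_of_finite (ZMod 2)
  haveI := Fintype.ofFinite (Module.Dual (ZMod 2) P)
  have h5 : Fintype.card (Module.Dual (ZMod 2) P) = 4 := by
    rw [Module.card_eq_pow_finrank (K := ZMod 2), Subspace.dual_finrank_eq, h4, ZMod.card]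
    norm_num
  let φ : E → Module.Dual (ZMod 2) P := fun e => (LinearMap.proj e).comp P.subtype
  have hφ : ∀ e (p : P), φ e p = (p : E → ZMod 2) e := fun e p => rfl
  have hmem : ∀ z ∈ M.Z, mask V z ∈ P := by
    intro z hz
    rw [hP]
    exact ⟨z, hz, rfl⟩
  have h6 : V.image φ ⊆ Finset.univ.erase 0 := by
    intro ψ hψ
    obtain ⟨e, he, rfl⟩ := Finset.mem_image.1 hψ
    refine Finset.mem_erase.2 ⟨fun h' => ?_, Finset.mem_univ _⟩
    obtain ⟨z, hz, hz1⟩ := tc_coloop M h (hVS he)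
    have h7 := hφ e ⟨mask V z, hmem z hz⟩
    rw [h'] at h7
    simp [he, hz1] at h7
  have h7 : (V.image φ).card = V.card := by
    refine Finset.card_image_of_injOn ?_
    intro e he f hf hef
    by_contra hne
    have he1 : e ∈ V := he
    have hf1 : f ∈ V := hf
    obtain ⟨z, hz, hz1⟩ := tc_series M h (hVS he) (hVS hf) hne
    have h8 := hφ e ⟨mask V z, hmem z hz⟩
    have h9 := hφ f ⟨mask V z, hmem z hz⟩
    rw [show φ e = φ f from hef, h9] at h8
    simp only [mask_apply, if_pos he1, if_pos hf1] at h8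
    exact hz1 h8.symm
  have h8 := Finset.card_le_card h6
  rw [h7, Finset.card_erase_of_mem (Finset.mem_univ _), Finset.card_univ, h5] at h8
  omega

end SEY
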