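import Pool.Agent.Helper38.SEY.Good

/-!
Block LINK (helper38) of the project SEY, module Quad: a quad (cycle and cocycle `{q 0, .., q 3}`) gives an `F7`-minor.
API in Helper71/SEYApi.lean.

`W := univ.image q`, `W.card = 4`.
* `quad_facts`: `M.lam W = 2`, every row supported in `W` is `0` or `ind W`, and every even function on `W` is the restriction of a
  row.  Proof: `ind W ∈ M.Z` (`BM.mem_Z`, from `hz`), so `1 ≤ M.dZ W`, `M.r W ≤ 3` (`BM.r_add_dZ`); `1 ≤ M.dR W`; `M.lam W + M.dR W = M.r W`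
  (`BM.lam_add_dR_eq_r`), so `M.lam W ≤ 2`; by TC `2 ≤ M.lam W` (`W` and `M.S \ W` have at least 4 elements).  So `M.dR W = 1`, `M.r W = 3`,
  `M.dZ W = 1`.  `dR W = 1` and `ind W ∈ RIn W` nonzero: every element of `RIn W` is a multiple of `ind W`
  (`finrank_eq_one_iff_of_nonzero'`).  Even functions: apply `BM.mem_R_iff` to `M.res W`, whose cycles are `ZIn W = {0, ind W}` (`dZ W = 1`;
  `BM.mem_Z_res`, `BM.mem_res'`).
* `quad_fin`: a finite check.  `p1, p2 : Fin 4 → ZMod 2` (with sum 0) such that every `p` with sum 0 is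
  `a p1 + b p2 + c 1`.  Then there is an injective `s : Fin 3 → Fin 3` such that for all `a b c`, with
  `P i = a * p1 i + b * p2 i + c` and `dd = ![a + b, a, b]`: `dd (s 0) = P 0 + P 1`, `dd (s 1) = P 0 + P 2`,
  `dd (s 2) = P 1 + P 2`.  (By `decide` / case analysis over the values; it is enough to use the hypothesis for
  `p = ![1,1,0,0], ![1,0,1,0]`.)
* `quad_of_delta`: given the conclusion of the Delta lemma for `W` (hypotheses `hd`, `hdS`, `hCS`, `hCW`, `D1`..`D4`).  Take from (D4) rows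
  `f1, f2 ∈ M.R`, zero on `C`, with values `(1,1,0)`, `(1,0,1)` on `d 0, d 1, d 2`.  For a row `f`, zero on `C`, put
  `a = f (d 1)`, `b = f (d 2)`; by (D1) `f (d 0) = a + b`, so `f + a f1 + b f2` is zero on `C` and on the `d i`; by (D3) there is `g ∈ M.R`
  supported in `W` which agrees with it on `W`, so `g = c • ind W`: `f (q i) = a f1 (q i) + b f2 (q i) + c` for all `i`.  Every even function on `W`
  is the restriction of a row, and by (D2) of a row which is zero on `C`; so `quad_fin` applies to `p1 i = f1 (q i)`, `p2 i = f2 (q i)`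
  and gives `s`.  Put `φ = ![q 0, q 1, q 2, d (s 0), d (s 1), d (s 2), q 3]`.  For a row `f`, zero on `C`:
  `f (φ j) = (u, v, w, u + v, u + w, v + w, u + v + w)` where `u, v, w = f (q 0), f (q 1), f (q 2)`; this is `∑ i, ![u, v, w] i * F7 i j`.
  The three rows of `F7` arise: take a row with `(u, v, w)` a unit vector (even function `(1,0,0,1)` etc.), zero on `C` (D2).
  `C ⊆ M.S`, `φ i ∉ C`: `hCW`, `hdS`; injectivity of `φ`: `q`, `d`, `s` injective, `d i ∉ W`.
-/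

set_option autoImplicit false

namespace SEY

open Finset

variable {E : Type} [Fintype E] [DecidableEq E]

theorem quad_facts (M : BM E) (h : M.TC) (q : Fin 4 → E) (hq : Function.Injective q)
    (hS : ∀ i, q i ∈ M.S) (hz : ∀ f ∈ M.R, ∑ i, f (q i) = 0)
    (hr : ind (Finset.univ.image q) ∈ M.R) (hc : 8 ≤ M.S.card) :
    M.lam (Finset.univ.image q) = 2 ∧
      (∀ g ∈ M.R, (∀ e, e ∉ Finset.univ.image q → g e = 0) →
        g = 0 ∨ g = ind (Finset.univ.image q)) ∧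
      (∀ p : Fin 4 → ZMod 2, ∑ i, p i = 0 → ∃ f ∈ M.R, ∀ i, f (q i) = p i) := by
  have hWS : Finset.univ.image q ⊆ M.S := by
    intro e he
    obtain ⟨i, -, rfl⟩ := Finset.mem_image.1 he
    exact hS i
  have hcW : (Finset.univ.image q).card = 4 := by
    rw [Finset.card_image_of_injective _ hq]
    rfl
  have hqW : ∀ i, q i ∈ Finset.univ.image q := fun i =>
    Finset.mem_image.2 ⟨i, Finset.mem_univ i, rfl⟩
  have hsum : ∀ f : E → ZMod 2, ∑ e ∈ Finset.univ.image q, f e = ∑ i, f (q i) := fun f =>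
    Finset.sum_image (fun i _ j _ hij => hq hij)
  have hne : (ind (Finset.univ.image q) : E → ZMod 2) ≠ 0 := by
    intro h0
    have h1 := congrFun h0 (q 0)
    rw [ind_of_mem (hqW 0)] at h1
    exact one_ne_zero h1
  have hZ : (ind (Finset.univ.image q) : E → ZMod 2) ∈ M.Z := by
    rw [BM.mem_Z]
    refine ⟨fun e he => ind_of_notMem (fun h1 => he (hWS h1)), fun f hf => ?_⟩
    rw [dot_ind, hsum]
    exact hz f hf
  have h1 : 0 < M.dZ (Finset.univ.image q) :=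
    M.dZ_pos_iff.2 ⟨_, hZ, hne, fun e he => ind_of_notMem he⟩
  have h2 : 0 < M.dR (Finset.univ.image q) :=
    M.dR_pos_iff.2 ⟨_, hr, hne, fun e he => ind_of_notMem he⟩
  have h3 := M.r_add_dZ hWS
  have h4 := M.lam_add_dR_eq_r (Finset.univ.image q)
  have h5 : 2 ≤ M.lam (Finset.univ.image q) := by
    by_contra hlt
    have h6 := Finset.card_sdiff_add_card_eq_card hWS
    rcases (h.2 _ hWS).2 (by omega) with h7 | h7 <;> omega
  have hlam : M.lam (Finset.univ.image q) = 2 := by omega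
  have hdR : M.dR (Finset.univ.image q) = 1 := by omega
  have hdZ : M.dZ (Finset.univ.image q) = 1 := by omega
  have hone : ∀ N : BM E, N.dR (Finset.univ.image q) = 1 →
      (ind (Finset.univ.image q) : E → ZMod 2) ∈ N.R →
      ∀ g ∈ N.R, (∀ e, e ∉ Finset.univ.image q → g e = 0) →
        g = 0 ∨ g = ind (Finset.univ.image q) := by
    intro N hN hi g hg hg'
    have h6 := (finrank_eq_one_iff_of_nonzero' (K := ZMod 2) (V := N.RIn (Finset.univ.image q))
      ⟨ind (Finset.univ.image q), hi, fun e he => ind_of_notMem he⟩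
      (fun h7 => hne (congrArg Subtype.val h7))).1 hN ⟨g, hg, hg'⟩
    obtain ⟨c, hc⟩ := h6
    have h8 : c • (ind (Finset.univ.image q) : E → ZMod 2) = g := congrArg Subtype.val hc
    rcases zcases c with h9 | h9
    · left
      rw [← h8, h9, zero_smul]
    · right
      rw [← h8, h9, one_smul]
  refine ⟨hlam, hone M hdR hr, ?_⟩
  intro p hp
  -- the function on `W`
  let F : E → ZMod 2 := fun e => ∑ i, if q i = e then p i else 0
  have hF : ∀ i, F (q i) = p i := by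
    intro i
    show ∑ j, (if q j = q i then p j else 0) = p i
    rw [Finset.sum_eq_single i]
    · rw [if_pos rfl]
    · intro j _ hji
      rw [if_neg (fun h6 => hji (hq h6))]
    · intro h6
      exact (h6 (Finset.mem_univ i)).elim
  have hF0 : ∀ e, e ∉ Finset.univ.image q → F e = 0 := by
    intro e he
    show ∑ j, (if q j = e then p j else 0) = 0
    refine Finset.sum_eq_zero (fun j _ => if_neg (fun h6 => he ?_))
    rw [← h6]
    exact hqW j
  have hFR : F ∈ (M.res (Finset.univ.image q)).R := by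
    rw [BM.mem_R_iff]
    refine ⟨fun e he => hF0 e (fun h6 => he ?_), ?_⟩
    · rw [BM.res_S]
      exact Finset.mem_inter.2 ⟨hWS h6, h6⟩
    · intro z hz'
      rw [BM.mem_Z_res] at hz'
      rcases hone M.dual (by rw [BM.dual_dR]; exact hdZ) hZ z hz'.1 hz'.2 with h6 | h6
      · rw [h6, dot_zero_right]
      · rw [h6, dot_ind, hsum]
        rw [← hp]
        exact Finset.sum_congr rfl (fun i _ => hF i)
  rw [BM.mem_res'] at hFR
  obtain ⟨-, g, hg, hgF⟩ := hFR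
  refine ⟨g, hg, fun i => ?_⟩
  rw [hgF (q i) (Finset.mem_inter.2 ⟨hS i, hqW i⟩)]
  exact hF i

theorem quad_fin_aux : ∀ x1 x2 y1 y2 : ZMod 2,
    (∃ a b : ZMod 2, a * x1 + b * y1 = 0 ∧ a * x2 + b * y2 = 1) →
    (∃ a b : ZMod 2, a * x1 + b * y1 = 1 ∧ a * x2 + b * y2 = 0) →
    ∃ s : Fin 3 → Fin 3, Function.Injective s ∧ ∀ a b : ZMod 2,
      (![a + b, a, b] : Fin 3 → ZMod 2) (s 0) = a * x1 + b * y1 ∧
      (![a + b, a, b] : Fin 3 → ZMod 2) (s 1) = a * x2 + b * y2 ∧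
      (![a + b, a, b] : Fin 3 → ZMod 2) (s 2) = a * (x1 + x2) + b * (y1 + y2) := by
  decide

theorem quad_fin (p1 p2 : Fin 4 → ZMod 2) (h1 : ∑ i, p1 i = 0) (h2 : ∑ i, p2 i = 0)
    (h : ∀ p : Fin 4 → ZMod 2, ∑ i, p i = 0 → ∃ a b c : ZMod 2, ∀ i, p i = a * p1 i + b * p2 i + c) :
    ∃ s : Fin 3 → Fin 3, Function.Injective s ∧ ∀ (a b c : ZMod 2) (P : Fin 4 → ZMod 2),
      (∀ i, P i = a * p1 i + b * p2 i + c) →
        (![a + b, a, b] : Fin 3 → ZMod 2) (s 0) = P 0 + P 1 ∧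
        (![a + b, a, b] : Fin 3 → ZMod 2) (s 1) = P 0 + P 2 ∧
        (![a + b, a, b] : Fin 3 → ZMod 2) (s 2) = P 1 + P 2 := by
  have hA : ∃ a b : ZMod 2, a * (p1 0 + p1 1) + b * (p2 0 + p2 1) = 0 ∧
      a * (p1 0 + p1 2) + b * (p2 0 + p2 2) = 1 := by
    obtain ⟨a, b, c, hp⟩ := h ![1, 1, 0, 0] (by decide)
    have e0 := hp 0
    have e1 := hp 1
    have e2 := hp 2
    simp only [Matrix.cons_val_zero, Matrix.cons_val_one, Matrix.cons_val] at e0 e1 e2
    refine ⟨a, b, ?_, ?_⟩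
    · have h3 : a * (p1 0 + p1 1) + b * (p2 0 + p2 1) =
          (a * p1 0 + b * p2 0 + c) + (a * p1 1 + b * p2 1 + c) - (c + c) := by ring
      rw [h3, ← e0, ← e1, z_add_self c]
      decide
    · have h3 : a * (p1 0 + p1 2) + b * (p2 0 + p2 2) =
          (a * p1 0 + b * p2 0 + c) + (a * p1 2 + b * p2 2 + c) - (c + c) := by ring
      rw [h3, ← e0, ← e2, z_add_self c]
      decide
  have hB : ∃ a b : ZMod 2, a * (p1 0 + p1 1) + b * (p2 0 + p2 1) = 1 ∧
      a * (p1 0 + p1 2) + b * (p2 0 + p2 2) = 0 := by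
    obtain ⟨a, b, c, hp⟩ := h ![1, 0, 1, 0] (by decide)
    have e0 := hp 0
    have e1 := hp 1
    have e2 := hp 2
    simp only [Matrix.cons_val_zero, Matrix.cons_val_one, Matrix.cons_val] at e0 e1 e2
    refine ⟨a, b, ?_, ?_⟩
    · have h3 : a * (p1 0 + p1 1) + b * (p2 0 + p2 1) =
          (a * p1 0 + b * p2 0 + c) + (a * p1 1 + b * p2 1 + c) - (c + c) := by ring
      rw [h3, ← e0, ← e1, z_add_self c]
      decide
    · have h3 : a * (p1 0 + p1 2) + b * (p2 0 + p2 2) =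
          (a * p1 0 + b * p2 0 + c) + (a * p1 2 + b * p2 2 + c) - (c + c) := by ring
      rw [h3, ← e0, ← e2, z_add_self c]
      decide
  obtain ⟨s, hs, hs'⟩ := quad_fin_aux (p1 0 + p1 1) (p1 0 + p1 2) (p2 0 + p2 1) (p2 0 + p2 2) hA hB
  refine ⟨s, hs, fun a b c P hP => ?_⟩
  obtain ⟨k1, k2, k3⟩ := hs' a b
  refine ⟨?_, ?_, ?_⟩
  · rw [k1, hP 0, hP 1]
    have h3 : a * p1 0 + b * p2 0 + c + (a * p1 1 + b * p2 1 + c) =
        a * (p1 0 + p1 1) + b * (p2 0 + p2 1) + (c + c) := by ring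
    rw [h3, z_add_self, add_zero]
  · rw [k2, hP 0, hP 2]
    have h3 : a * p1 0 + b * p2 0 + c + (a * p1 2 + b * p2 2 + c) =
        a * (p1 0 + p1 2) + b * (p2 0 + p2 2) + (c + c) := by ring
    rw [h3, z_add_self, add_zero]
  · rw [k3, hP 1, hP 2]
    have h3 : a * (p1 0 + p1 1 + (p1 0 + p1 2)) + b * (p2 0 + p2 1 + (p2 0 + p2 2)) =
        a * (p1 1 + p1 2) + b * (p2 1 + p2 2) + a * (p1 0 + p1 0) + b * (p2 0 + p2 0) := by ring
    have h4 : a * p1 1 + b * p2 1 + c + (a * p1 2 + b * p2 2 + c) =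
        a * (p1 1 + p1 2) + b * (p2 1 + p2 2) + (c + c) := by ring
    rw [h3, h4, z_add_self, z_add_self, z_add_self, mul_zero, mul_zero, add_zero, add_zero]

theorem quad_of_delta (M : BM E) (q : Fin 4 → E) (hq : Function.Injective q)
    (hS : ∀ i, q i ∈ M.S) (hz : ∀ f ∈ M.R, ∑ i, f (q i) = 0)
    (hr : ind (Finset.univ.image q) ∈ M.R)
    (hr1 : ∀ g ∈ M.R, (∀ e, e ∉ Finset.univ.image q → g e = 0) →
        g = 0 ∨ g = ind (Finset.univ.image q))
    (hr2 : ∀ p : Fin 4 → ZMod 2, ∑ i, p i = 0 → ∃ f ∈ M.R, ∀ i, f (q i) = p i)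
    (d : Fin 3 → E) (C : Finset E) (hd : Function.Injective d)
    (hdS : ∀ i, d i ∈ M.S ∧ d i ∉ Finset.univ.image q ∧ d i ∉ C) (hCS : C ⊆ M.S)
    (hCW : Disjoint C (Finset.univ.image q))
    (D1 : ∀ f ∈ M.R, (∀ c ∈ C, f c = 0) → f (d 0) + f (d 1) + f (d 2) = 0)
    (D2 : ∀ f ∈ M.R, ∃ f' ∈ M.R, (∀ c ∈ C, f' c = 0) ∧ ∀ x ∈ Finset.univ.image q, f' x = f x)
    (D3 : ∀ f ∈ M.R, (∀ c ∈ C, f c = 0) → (∀ i, f (d i) = 0) →
        ∃ g ∈ M.R, (∀ e, e ∉ Finset.univ.image q → g e = 0) ∧ ∀ x ∈ Finset.univ.image q, g x = f x)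
    (D4 : ∀ p : Fin 3 → ZMod 2, p 0 + p 1 + p 2 = 0 →
        ∃ f ∈ M.R, (∀ c ∈ C, f c = 0) ∧ ∀ i, f (d i) = p i) : HasMinor F7 M := by
  have hqW : ∀ i, q i ∈ Finset.univ.image q := fun i =>
    Finset.mem_image.2 ⟨i, Finset.mem_univ i, rfl⟩
  obtain ⟨f1, hf1, hf1C, hf1d⟩ := D4 ![1, 1, 0] (by decide)
  obtain ⟨f2, hf2, hf2C, hf2d⟩ := D4 ![1, 0, 1] (by decide)
  have a0 : f1 (d 0) = 1 := hf1d 0
  have a1 : f1 (d 1) = 1 := hf1d 1
  have a2 : f1 (d 2) = 0 := hf1d 2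
  have b0 : f2 (d 0) = 1 := hf2d 0
  have b1 : f2 (d 1) = 0 := hf2d 1
  have b2 : f2 (d 2) = 1 := hf2d 2
  have key : ∀ f ∈ M.R, (∀ c ∈ C, f c = 0) → ∃ c : ZMod 2, ∀ i,
      f (q i) = f (d 1) * f1 (q i) + f (d 2) * f2 (q i) + c := by
    intro f hf hfC
    have hd1 := D1 f hf hfC
    obtain ⟨g, hg, hg0, hgx⟩ := D3 (f + f (d 1) • f1 + f (d 2) • f2)
      (M.R.add_mem (M.R.add_mem hf (M.R.smul_mem _ hf1)) (M.R.smul_mem _ hf2))
      (by
        intro c hc
        simp only [Pi.add_apply, Pi.smul_apply, smul_eq_mul]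
        rw [hfC c hc, hf1C c hc, hf2C c hc]
        ring)
      (by
        intro i
        simp only [Pi.add_apply, Pi.smul_apply, smul_eq_mul]
        fin_cases i
        · show f (d 0) + f (d 1) * f1 (d 0) + f (d 2) * f2 (d 0) = 0
          rw [a0, b0, mul_one, mul_one]
          exact hd1
        · show f (d 1) + f (d 1) * f1 (d 1) + f (d 2) * f2 (d 1) = 0
          rw [a1, b1, mul_one, mul_zero, z_add_self, add_zero]
        · show f (d 2) + f (d 1) * f1 (d 2) + f (d 2) * f2 (d 2) = 0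
          rw [a2, b2, mul_one, mul_zero, add_zero, z_add_self])
    have hc : ∃ c : ZMod 2, ∀ i, g (q i) = c := by
      rcases hr1 g hg hg0 with h1 | h1
      · exact ⟨0, fun i => by rw [h1]; rfl⟩
      · exact ⟨1, fun i => by rw [h1, ind_of_mem (hqW i)]⟩
    obtain ⟨c, hc⟩ := hc
    refine ⟨c, fun i => ?_⟩
    have h2 := hgx (q i) (hqW i)
    rw [hc i] at h2
    simp only [Pi.add_apply, Pi.smul_apply, smul_eq_mul] at h2
    rw [h2]
    have h3 : f (d 1) * f1 (q i) + f (d 2) * f2 (q i) +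
        (f (q i) + f (d 1) * f1 (q i) + f (d 2) * f2 (q i)) =
        f (q i) + ((f (d 1) * f1 (q i) + f (d 2) * f2 (q i)) +
          (f (d 1) * f1 (q i) + f (d 2) * f2 (q i))) := by ring
    rw [h3, z_add_self, add_zero]
  have ext : ∀ p : Fin 4 → ZMod 2, ∑ i, p i = 0 → ∃ f ∈ M.R, (∀ c ∈ C, f c = 0) ∧
      ∀ i, f (q i) = p i := by
    intro p hp
    obtain ⟨f, hf, hfp⟩ := hr2 p hp
    obtain ⟨f', hf', hf'C, hf'x⟩ := D2 f hf
    exact ⟨f', hf', hf'C, fun i => by rw [hf'x (q i) (hqW i), hfp i]⟩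
  obtain ⟨s, hs, hs'⟩ := quad_fin (fun i => f1 (q i)) (fun i => f2 (q i)) (hz f1 hf1) (hz f2 hf2)
    (by
      intro p hp
      obtain ⟨f, hf, hfC, hfp⟩ := ext p hp
      obtain ⟨c, hc⟩ := key f hf hfC
      exact ⟨f (d 1), f (d 2), c, fun i => by rw [← hfp i]; exact hc i⟩)
  have hdd : ∀ f ∈ M.R, (∀ c ∈ C, f c = 0) →
      f (d (s 0)) = f (q 0) + f (q 1) ∧ f (d (s 1)) = f (q 0) + f (q 2) ∧
      f (d (s 2)) = f (q 1) + f (q 2) ∧ f (q 3) = f (q 0) + f (q 1) + f (q 2) := by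
    intro f hf hfC
    obtain ⟨c, hc⟩ := key f hf hfC
    have h1 := hs' (f (d 1)) (f (d 2)) c (fun i => f (q i)) hc
    have h2 : ∀ j, (![f (d 1) + f (d 2), f (d 1), f (d 2)] : Fin 3 → ZMod 2) j = f (d j) := by
      intro j
      fin_cases j
      · show f (d 1) + f (d 2) = f (d 0)
        have h3 := D1 f hf hfC
        rw [add_assoc, z_add_eq_zero] at h3
        exact h3.symm
      · rfl
      · rfl
    rw [h2, h2, h2] at h1
    refine ⟨h1.1, h1.2.1, h1.2.2, ?_⟩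
    have h3 := hz f hf
    rw [Fin.sum_univ_four, z_add_eq_zero] at h3
    exact h3.symm
  have hqd : ∀ i j, q i ≠ d j := fun i j h1 => (hdS j).2.1 (h1 ▸ hqW i)
  have hdq : ∀ i j, d j ≠ q i := fun i j h1 => hqd i j h1.symm
  have hqC : ∀ i, q i ∉ C := fun i h1 => Finset.disjoint_left.1 hCW h1 (hqW i)
  refine ⟨![q 0, q 1, q 2, d (s 0), d (s 1), d (s 2), q 3], C, ?_, ?_, hCS, ?_, ?_, ?_⟩
  · intro i j hij
    fin_cases i <;> fin_cases j <;>
      first
      | rfl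
      | (exfalso
         simp [hq.eq_iff, hd.eq_iff, hs.eq_iff, hqd, hdq] at hij)
  · intro i
    fin_cases i
    · exact hS 0
    · exact hS 1
    · exact hS 2
    · exact (hdS (s 0)).1
    · exact (hdS (s 1)).1
    · exact (hdS (s 2)).1
    · exact hS 3
  · intro i
    fin_cases i
    · exact hqC 0
    · exact hqC 1
    · exact hqC 2
    · exact (hdS (s 0)).2.2
    · exact (hdS (s 1)).2.2
    · exact (hdS (s 2)).2.2
    · exact hqC 3
  · have hrow : ∀ (p : Fin 4 → ZMod 2) (row : Fin 7 → ZMod 2), ∑ i, p i = 0 →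
        row 0 = p 0 → row 1 = p 1 → row 2 = p 2 → row 3 = p 0 + p 1 → row 4 = p 0 + p 2 →
        row 5 = p 1 + p 2 → row 6 = p 0 + p 1 + p 2 →
        ∃ f ∈ M.R, (∀ c ∈ C, f c = 0) ∧
          ∀ j, f ((![q 0, q 1, q 2, d (s 0), d (s 1), d (s 2), q 3] : Fin 7 → E) j) = row j := by
      intro p row hp r0 r1 r2 r3 r4 r5 r6
      obtain ⟨f, hf, hfC, hfp⟩ := ext p hp
      obtain ⟨k0, k1, k2, k3⟩ := hdd f hf hfC
      refine ⟨f, hf, hfC, fun j => ?_⟩
      fin_cases j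
      · exact (hfp 0).trans r0.symm
      · exact (hfp 1).trans r1.symm
      · exact (hfp 2).trans r2.symm
      · exact (k0.trans (by rw [hfp 0, hfp 1])).trans r3.symm
      · exact (k1.trans (by rw [hfp 0, hfp 2])).trans r4.symm
      · exact (k2.trans (by rw [hfp 1, hfp 2])).trans r5.symm
      · exact (k3.trans (by rw [hfp 0, hfp 1, hfp 2])).trans r6.symm
    intro i
    fin_cases i
    · exact hrow ![1, 0, 0, 1] (F7 0) (by decide) rfl rfl rfl rfl rfl rfl rfl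
    · exact hrow ![0, 1, 0, 1] (F7 1) (by decide) rfl rfl rfl rfl rfl rfl rfl
    · exact hrow ![0, 0, 1, 1] (F7 2) (by decide) rfl rfl rfl rfl rfl rfl rfl
  · intro f hf hfC
    obtain ⟨k0, k1, k2, k3⟩ := hdd f hf hfC
    refine ⟨![f (q 0), f (q 1), f (q 2)], fun j => ?_⟩
    have hsum : ∀ j, ∑ i, (![f (q 0), f (q 1), f (q 2)] : Fin 3 → ZMod 2) i * F7 i j =
        f (q 0) * F7 0 j + f (q 1) * F7 1 j + f (q 2) * F7 2 j := fun j => by
      rw [Fin.sum_univ_three]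
      rfl
    rw [hsum]
    fin_cases j
    · show f (q 0) = f (q 0) * 1 + f (q 1) * 0 + f (q 2) * 0
      ring
    · show f (q 1) = f (q 0) * 0 + f (q 1) * 1 + f (q 2) * 0
      ring
    · show f (q 2) = f (q 0) * 0 + f (q 1) * 0 + f (q 2) * 1
      ring
    · show f (d (s 0)) = f (q 0) * 1 + f (q 1) * 1 + f (q 2) * 0
      rw [k0]
      ring
    · show f (d (s 1)) = f (q 0) * 1 + f (q 1) * 0 + f (q 2) * 1
      rw [k1]
      ring
    · show f (d (s 2)) = f (q 0) * 0 + f (q 1) * 1 + f (q 2) * 1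
      rw [k2]
      ring
    · show f (q 3) = f (q 0) * 1 + f (q 1) * 1 + f (q 2) * 1
      rw [k3]
      ring

end SEY
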