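import Pool.Agent.Helper71.SEYApi

/-!
Block LINK (helper38) of the project SEY: circuits and good pairs.
-/

set_option autoImplicit false

namespace SEY

open Finset

variable {E : Type} [Fintype E] [DecidableEq E]

/-- `Q` is a circuit of `M`. -/
def Circ (M : BM E) (Q : Finset E) : Prop :=
  Q.Nonempty ∧ ind Q ∈ M.Z ∧ ∀ z ∈ M.Z, (∀ e, e ∉ Q → z e = 0) → z = 0 ∨ z = ind Q

/-- `Q` is a circuit of `M` off `W` with connectivity at least `2` to `W`. -/
def GoodP (M : BM E) (W Q : Finset E) : Prop :=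
  W ⊆ M.S ∧ Q ⊆ M.S ∧ Disjoint W Q ∧ Circ M Q ∧
    ∀ A, W ⊆ A → A ⊆ M.S → Disjoint A Q → 2 ≤ M.lam A

end SEY
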