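import Pool.Agent.Helper38.SEY.Good

/-!
Block LINK (helper38) of the project SEY, module Red: reduction of a good pair (M, Q) to the case
`M'.S = W ∪ Q'`.  Definitions `Circ`, `GoodP` in Helper38/SEY/Good.lean, API in Helper71/SEYApi.lean.

PROOF of `good_red`.  Strong induction on `M.S.card + Q.card` (generalising `M`, `Q`).  If
`M.S = W ∪ Q` take `M' = M` (`Minor.refl`).  Otherwise let `x ∈ M.S`, `x ∉ W`, `x ∉ Q`.
(1) If `GoodP (M.del {x}) W Q`, use the induction hypothesis for it, with `Minor.trans` and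
    `minor_del`.  Note that `Circ (M.del {x}) Q` always holds (`BM.mem_Z_del`, `x ∉ Q`), so otherwise
    there is `A0` with `W ⊆ A0 ⊆ M.S \ {x}`, `Disjoint A0 Q`, `(M.del {x}).lam A0 ≤ 1`.
(2) For every `A` with `W ⊆ A ⊆ M.S \ {x}`, `Disjoint A Q` we have `2 ≤ (M.con {x}).lam A`: otherwise
    by `BM.uncross` (with `A := A0`, `C := A`)  `M.lam (A0 ∩ A) + M.lam (insert x (A0 ∪ A)) ≤ 1 + 1 + 1`, but both
    sets contain `W` and are disjoint from `Q`, so both numbers are at least 2.  So if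
    `Circ (M.con {x}) Q` then `GoodP (M.con {x}) W Q`, use the induction hypothesis.
(3) Suppose `Circ (M.con {x}) Q` fails (lemma `split_circuit`).  `ind Q ∈ (M.con {x}).Z` (`BM.mem_Z_con`), so there is
    `z' ∈ (M.con {x}).Z` supported in `Q`, `z' ≠ 0`, `z' ≠ ind Q`; `z' = mask (M.S \ {x}) w`, `w ∈ M.Z`.  If `w x = 0`
    then `w = z'` is a cycle of `M` supported in `Q`, a contradiction to `Circ M Q`; so `w x = 1`.  Put
    `C1 = spt z'` and `C2 = Q \ C1`, both nonempty, disjoint, with union `Q`;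
    `ind (insert x C1) = w ∈ M.Z` and `ind (insert x C2) = w + ind Q ∈ M.Z`.  Both `insert x C1`, `insert x C2` are
    circuits: let `v ∈ M.Z` be supported in `insert x C1`; if `v x = 0` then `v` is supported in `C1 ⊂ Q`, so `v = 0`; if
    `v x = 1` then `v + w` is supported in `C1`, so `v = w`.
(4) `2 ≤ C2.card` (and `2 ≤ C1.card`, the same proof; lemma `no_parallel`): otherwise `C2 = {c}` and `ind {x, c} ∈ M.Z`,
    `c ∈ Q`.  Then `M.r (M.S \ A0) = M.r ((M.S \ {x}) \ A0)` and `M.r M.S = M.r (M.S \ {x})` by `BM.r_insert_eq_iff`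
    (`c` lies in `(M.S \ {x}) \ A0`, as `Disjoint A0 Q`), so `M.lam A0 = (M.del {x}).lam A0 ≤ 1` (use `BM.lam_del_add`
    and `BM.lam_add_rk`), but `2 ≤ M.lam A0` by `GoodP M W Q`.
(5) If `GoodP M W (insert x C1)`: use the induction hypothesis, `(insert x C1).card = C1.card + 1 < Q.card`.  The same for
    `C2`.
(6) Otherwise there are `A1`, `A2`, `W ⊆ Ai ⊆ M.S`, `Disjoint Ai (insert x Ci)`, `M.lam Ai ≤ 1`.  By `BM.lam_submod`
    `M.lam (A1 ∪ A2) + M.lam (A1 ∩ A2) ≤ 2`, and `2 ≤ M.lam (A1 ∩ A2)` as `W ⊆ A1 ∩ A2`, `Disjoint (A1 ∩ A2) Q`.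
    So `M.lam (A1 ∪ A2) = 0`.  A circuit `P` which contains an element outside a set `B ⊆ M.S` with `M.lam B = 0` is
    disjoint from `B` (lemma `circ_separator`).  Both `insert x C1`, `insert x C2` contain `x ∉ A1 ∪ A2`, so `Q` is disjoint from
    `A1 ∪ A2`, so `2 ≤ M.lam (A1 ∪ A2) = 0`, contradiction.
`circ_separator`: `M.lam B = 0`, so by `BM.lam_add_dZ` `dZ B + dZ (M.S \ B) = nul`, `ZIn B ⊓ ZIn (M.S \ B) = ⊥`, so
    `ZIn B ⊔ ZIn (M.S \ B) = M.Z` (`Submodule.eq_of_le_of_finrank_le`), so `mask B z ∈ M.Z` for every `z ∈ M.Z` (or, in the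
    other direction, use the dual: rows).  Apply it to `z = ind P`: `mask B (ind P) = ind (B ∩ P)` is `0` or `ind P`.
-/

set_option autoImplicit false

namespace SEY

open Finset

variable {E : Type} [Fintype E] [DecidableEq E]

open BM in
/-- if `lam B = 0`, then the restriction of a cycle to `B` is a cycle -/
lemma red_mask_mem (M : BM E) (B : Finset E) (h : M.lam B = 0)
    {z : E → ZMod 2} (hz : z ∈ M.Z) : mask B z ∈ M.Z := by
  have h1 := M.lam_add_dZ B
  rw [h, zero_add] at h1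
  have h2 := Submodule.finrank_sup_add_finrank_inf_eq (M.ZIn B) (M.ZIn (M.S \ B))
  have h3 : M.ZIn B ⊓ M.ZIn (M.S \ B) = ⊥ := by
    rw [Submodule.eq_bot_iff]
    rintro v ⟨hv1, hv2⟩
    ext e
    by_cases he : e ∈ B
    · exact hv2.2 e (by simp [he])
    · exact hv1.2 e he
  rw [h3, finrank_bot, add_zero] at h2
  have h4 : M.ZIn B ⊔ M.ZIn (M.S \ B) ≤ M.Z :=
    sup_le (fun v hv => hv.1) (fun v hv => hv.1)
  have h5 : M.ZIn B ⊔ M.ZIn (M.S \ B) = M.Z := by
    refine Submodule.eq_of_le_of_finrank_eq h4 ?_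
    rw [h2]
    exact h1
  rw [← h5, Submodule.mem_sup] at hz
  obtain ⟨a, ha, b, hb, rfl⟩ := hz
  have h6 : mask B (a + b) = a := by
    rw [map_add, mask_eq_self ha.2]
    have : mask B b = 0 := by
      rw [mask_eq_zero_iff]
      intro e he
      exact hb.2 e (by simp [he])
    rw [this, add_zero]
  rw [h6]
  exact ha.1

theorem circ_separator (M : BM E) (B P : Finset E) (hB : B ⊆ M.S) (h : M.lam B = 0)
    (hP : Circ M P) (hx : ∃ x ∈ P, x ∉ B) : Disjoint B P := by
  obtain ⟨x, hxP, hxB⟩ := hx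
  have h1 := red_mask_mem M B h hP.2.1
  rw [mask_ind] at h1
  have h2 : ind (B ∩ P) = (0 : E → ZMod 2) ∨ ind (B ∩ P) = (ind P : E → ZMod 2) := by
    refine hP.2.2 _ h1 (fun e he => ind_of_notMem (fun h' => he (Finset.mem_inter.1 h').2))
  rcases h2 with h2 | h2
  · rw [ind_eq_zero] at h2
    rw [Finset.disjoint_iff_inter_eq_empty]; exact h2
  · rw [ind_inj] at h2
    rw [← h2] at hxP
    exact absurd (Finset.mem_inter.1 hxP).1 hxB

theorem split_circuit (M : BM E) (Q : Finset E) (x : E) (hQ : Circ M Q) (hQS : Q ⊆ M.S)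
    (hxS : x ∈ M.S) (hx : x ∉ Q) (h : ¬ Circ (M.con {x}) Q) :
    ∃ C1 C2 : Finset E, C1.Nonempty ∧ C2.Nonempty ∧ Disjoint C1 C2 ∧ C1 ∪ C2 = Q ∧
      Circ M (insert x C1) ∧ Circ M (insert x C2) := by
  obtain ⟨hQ1, hQ2, hQ3⟩ := hQ
  have hQx : ind Q ∈ (M.con {x}).Z := by
    rw [BM.mem_Z_con]
    refine ⟨ind Q, hQ2, mask_eq_self (fun e he => ind_of_notMem (fun h' => he ?_))⟩
    simp only [Finset.mem_sdiff, Finset.mem_singleton]
    exact ⟨hQS h', fun h2 => hx (h2 ▸ h')⟩
  have h1 : ∃ z ∈ (M.con {x}).Z, (∀ e, e ∉ Q → z e = 0) ∧ z ≠ 0 ∧ z ≠ ind Q := by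
    by_contra hcon
    push_neg at hcon
    refine h ⟨hQ1, hQx, fun z hz hz2 => ?_⟩
    by_cases h0 : z = 0
    · exact Or.inl h0
    · exact Or.inr (hcon z hz hz2 h0)
  obtain ⟨z', hz', hz'Q, hz'0, hz'ne⟩ := h1
  rw [BM.mem_Z_con] at hz'
  obtain ⟨w, hw, hwz⟩ := hz'
  have hwS : ∀ e, e ∉ M.S → w e = 0 := fun e he => M.Z_supp hw he
  have hwe : ∀ e, e ≠ x → w e = z' e := by
    intro e he
    by_cases heS : e ∈ M.S
    · rw [← hwz, mask_apply, if_pos]
      simp [heS, he]
    · rw [hwS e heS, hz'Q e (fun h' => heS (hQS h'))]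
  have hwx : w x = 1 := by
    by_contra hne
    have hw0 : w x = 0 := z_ne_one.1 hne
    have hwz' : w = z' := by
      ext e
      by_cases he : e = x
      · subst he; rw [hw0, hz'Q e hx]
      · exact hwe e he
    rcases hQ3 w hw (fun e he => by rw [hwz']; exact hz'Q e he) with h2 | h2
    · exact hz'0 (hwz' ▸ h2)
    · exact hz'ne (hwz' ▸ h2)
  set C1 := spt z' with hC1
  have hC1Q : C1 ⊆ Q := spt_subset.2 hz'Q
  have hxC1 : x ∉ C1 := fun h' => hx (hC1Q h')
  have hw1 : w = ind (insert x C1) := by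
    ext e
    by_cases he : e = x
    · subst he; rw [hwx, ind_of_mem (by simp)]
    · rw [hwe e he]
      by_cases he2 : e ∈ C1
      · rw [ind_of_mem (by simp [he2]), mem_spt'.1 he2]
      · rw [ind_of_notMem (by simp [he, he2]), notMem_spt.1 he2]
  have hmem1 : ind (insert x C1) ∈ M.Z := hw1 ▸ hw
  have hw2 : (ind (insert x C1) + ind Q : E → ZMod 2) = ind (insert x (Q \ C1)) := by
    rw [ind_add]
    congr 1
    ext e
    simp only [Finset.mem_symmDiff, Finset.mem_insert, Finset.mem_sdiff]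
    by_cases he : e = x
    · subst he; simp [hx]
    · by_cases he2 : e ∈ C1
      · simp [he, he2, hC1Q he2]
      · simp [he, he2]
  have hmem2 : ind (insert x (Q \ C1)) ∈ M.Z := by
    rw [← hw2]; exact M.Z.add_mem hmem1 hQ2
  have hC1ne : C1.Nonempty := by
    rw [Finset.nonempty_iff_ne_empty, Ne, spt_eq_empty]; exact hz'0
  have hC2ne : (Q \ C1).Nonempty := by
    rw [Finset.nonempty_iff_ne_empty]
    intro h2
    have h3 : C1 = Q := Finset.Subset.antisymm hC1Q (Finset.sdiff_eq_empty_iff_subset.1 h2)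
    apply hz'ne
    rw [← h3, ind_spt]
  -- both are circuits
  have key : ∀ C C' : Finset E, C ⊆ Q → C ≠ Q → ind (insert x C) ∈ M.Z → Circ M (insert x C) := by
    intro C _ hCQ hCne hmem
    have hxC : x ∉ C := fun h' => hx (hCQ h')
    have small : ∀ v ∈ M.Z, (∀ e, e ∉ C → v e = 0) → v = 0 := by
      intro v hv hvC
      rcases hQ3 v hv (fun e he => hvC e (fun h' => he (hCQ h'))) with h2 | h2
      · exact h2
      · exfalso
        apply hCne
        refine Finset.Subset.antisymm hCQ (fun e he => ?_)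
        by_contra heC
        have := hvC e heC
        rw [h2, ind_of_mem he] at this
        exact one_ne_zero this
    refine ⟨⟨x, by simp⟩, hmem, fun v hv hvC => ?_⟩
    rcases zcases (v x) with h2 | h2
    · left
      refine small v hv (fun e he => ?_)
      by_cases hex : e = x
      · subst hex; exact h2
      · exact hvC e (by simp [hex, he])
    · right
      have h3 : v + ind (insert x C) = 0 := by
        refine small _ (M.Z.add_mem hv hmem) (fun e he => ?_)
        by_cases hex : e = x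
        · subst hex
          rw [Pi.add_apply, h2, ind_of_mem (by simp)]
          exact z_add_self 1
        · have hnot : e ∉ insert x C := by simp [hex, he]
          rw [Pi.add_apply, hvC e hnot, ind_of_notMem hnot, add_zero]
      ext e
      have := congrFun h3 e
      rw [Pi.add_apply, Pi.zero_apply, z_add_eq_zero] at this
      exact this
  refine ⟨C1, Q \ C1, hC1ne, hC2ne, Finset.disjoint_sdiff, Finset.union_sdiff_of_subset hC1Q,
    key C1 ∅ hC1Q ?_ hmem1, key (Q \ C1) ∅ Finset.sdiff_subset ?_ hmem2⟩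
  · intro h2
    rw [h2] at hC2ne
    simp at hC2ne
  · intro h2
    obtain ⟨e, he⟩ := hC1ne
    have := hC1Q he
    rw [← h2] at this
    exact (Finset.mem_sdiff.1 this).2 he

theorem no_parallel (M : BM E) (A : Finset E) (x c : E) (hA : A ⊆ M.S) (hxS : x ∈ M.S)
    (hcS : c ∈ M.S) (hxc : x ≠ c) (hxA : x ∉ A) (hcA : c ∉ A) (h : ind {x, c} ∈ M.Z) :
    (M.del {x}).lam A = M.lam A := by
  have h1 := M.lam_del_add {x} A
  have h2 := M.lam_add_rk A
  have hAx : A \ {x} = A := Finset.sdiff_eq_self_of_disjoint (by simpa using hxA)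
  rw [hAx] at h1
  have par : ∀ B : Finset E, B ⊆ M.S → x ∉ B → c ∈ B → M.r (insert x B) = M.r B := by
    intro B hB hxB hcB
    rw [M.r_insert_eq_iff hB hxS hxB]
    refine ⟨ind {x, c}, h, ind_of_mem (by simp), fun e he => ind_of_notMem (fun h' => he ?_)⟩
    simp only [Finset.mem_insert, Finset.mem_singleton] at h' ⊢
    rcases h' with rfl | rfl
    · exact Or.inl rfl
    · exact Or.inr hcB
  have h3 := par (M.S \ {x}) Finset.sdiff_subset (by simp) (by simp [hcS, hxc.symm])
  have h4 := par ((M.S \ A) \ {x}) (Finset.sdiff_subset.trans Finset.sdiff_subset) (by simp)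
    (by simp [hcS, hcA, hxc.symm])
  have h5 : insert x (M.S \ {x}) = M.S := by
    ext e
    by_cases he : e = x
    · subst he; simp [hxS]
    · simp [he]
  have h6 : insert x ((M.S \ A) \ {x}) = M.S \ A := by
    ext e
    by_cases he : e = x
    · subst he; simp [hxS, hxA]
    · simp [he]
  rw [h5, BM.r_S] at h3
  rw [h6] at h4
  omega

theorem good_red_aux (W : Finset E) (n : ℕ) : ∀ (M : BM E) (Q : Finset E),
    M.S.card + Q.card ≤ n → GoodP M W Q →
    ∃ (M' : BM E) (Q' : Finset E), Minor M' M ∧ GoodP M' W Q' ∧ M'.S = W ∪ Q' := by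
  induction n with
  | zero =>
    intro M Q hn h
    obtain ⟨hW, hQ, hWQ, ⟨hne, _⟩, _⟩ := h
    have := Finset.card_pos.2 hne
    omega
  | succ n ih =>
    intro M Q hn h
    by_cases hS : M.S = W ∪ Q
    · exact ⟨M, Q, Minor.refl M, h, hS⟩
    obtain ⟨hW, hQ, hWQ, hC, hlam⟩ := h
    obtain ⟨x, hxS, hxW, hxQ⟩ : ∃ x ∈ M.S, x ∉ W ∧ x ∉ Q := by
      by_contra hcon
      push_neg at hcon
      refine hS (Finset.Subset.antisymm (fun e he => ?_) (Finset.union_subset hW hQ))
      by_cases heW : e ∈ W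
      · simp [heW]
      · simp [hcon e he heW]
    have hcard : (M.S \ {x}).card + 1 = M.S.card := by
      rw [Finset.sdiff_singleton_eq_erase]
      exact Finset.card_erase_add_one hxS
    have hsub : ∀ B : Finset E, B ⊆ M.S → x ∉ B → B ⊆ M.S \ {x} := by
      intro B hB hxB e he
      simp only [Finset.mem_sdiff, Finset.mem_singleton]
      exact ⟨hB he, fun h' => hxB (h' ▸ he)⟩
    have hcd : Circ (M.del {x}) Q := by
      refine ⟨hC.1, ?_, fun z hz hz2 => hC.2.2 z ((M.mem_Z_del).1 hz).1 hz2⟩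
      rw [BM.mem_Z_del]
      refine ⟨hC.2.1, fun e he => ind_of_notMem ?_⟩
      rw [Finset.mem_singleton] at he
      subst he; exact hxQ
    by_cases h1 : ∀ A, W ⊆ A → A ⊆ (M.del {x}).S → Disjoint A Q → 2 ≤ (M.del {x}).lam A
    · obtain ⟨M', Q', h2, h3, h4⟩ := ih (M.del {x}) Q (by rw [BM.del_S]; omega)
        ⟨hsub W hW hxW, hsub Q hQ hxQ, hWQ, hcd, h1⟩
      exact ⟨M', Q', h2.trans (minor_del _ _), h3, h4⟩
    push_neg at h1
    obtain ⟨A0, hA1, hA2, hA3, hA4⟩ := h1
    rw [BM.del_S] at hA2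
    have hxA0 : x ∉ A0 := fun h' => by simpa using hA2 h'
    have hA0S : A0 ⊆ M.S := hA2.trans Finset.sdiff_subset
    have h2 : ∀ A, W ⊆ A → A ⊆ (M.con {x}).S → Disjoint A Q → 2 ≤ (M.con {x}).lam A := by
      intro A hB1 hB2 hB3
      rw [BM.con_S] at hB2
      have hxA : x ∉ A := fun h' => by simpa using hB2 h'
      have h3 := M.uncross hxS hxA0 hxA
      have h4 := hlam (A0 ∩ A) (Finset.subset_inter hA1 hB1)
        (Finset.inter_subset_left.trans hA0S)
        (Finset.disjoint_of_subset_left Finset.inter_subset_left hA3)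
      have h5 := hlam (insert x (A0 ∪ A)) (fun f hf => by simp [hA1 hf])
        (by
          intro f hf
          simp only [Finset.mem_insert, Finset.mem_union] at hf
          rcases hf with hf | hf | hf
          · exact hf ▸ hxS
          · exact hA0S hf
          · exact (Finset.mem_sdiff.1 (hB2 hf)).1)
        (by
          rw [Finset.disjoint_insert_left, Finset.disjoint_union_left]
          exact ⟨hxQ, hA3, hB3⟩)
      omega
    by_cases h3 : Circ (M.con {x}) Q
    · obtain ⟨M', Q', h4, h5, h6⟩ := ih (M.con {x}) Q (by rw [BM.con_S]; omega)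
        ⟨hsub W hW hxW, hsub Q hQ hxQ, hWQ, h3, h2⟩
      exact ⟨M', Q', h4.trans (minor_con _ _), h5, h6⟩
    obtain ⟨C1, C2, hC1, hC2, hd, hU, k1, k2⟩ := split_circuit M Q x hC hQ hxS hxQ h3
    have hC1Q : C1 ⊆ Q := by rw [← hU]; exact Finset.subset_union_left
    have hC2Q : C2 ⊆ Q := by rw [← hU]; exact Finset.subset_union_right
    have hcardU : C1.card + C2.card = Q.card := by
      rw [← Finset.card_union_of_disjoint hd, hU]
    -- both parts have at least two elements
    have key : ∀ C : Finset E, C ⊆ Q → C.Nonempty → Circ M (insert x C) → 2 ≤ C.card := by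
      intro C hCQ hCne hCc
      by_contra hlt
      have hpos := Finset.card_pos.2 hCne
      obtain ⟨c, rfl⟩ := Finset.card_eq_one.1 (show C.card = 1 by omega)
      have hcQ : c ∈ Q := hCQ (by simp)
      have hcA0 : c ∉ A0 := fun h' => Finset.disjoint_left.1 hA3 h' hcQ
      have h4 := no_parallel M A0 x c hA0S hxS (hQ hcQ) (fun h' => hxQ (h' ▸ hcQ)) hxA0 hcA0
        hCc.2.1
      have h5 := hlam A0 hA1 hA0S hA3
      omega
    have hk1 := key C1 hC1Q hC1 k1
    have hk2 := key C2 hC2Q hC2 k2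
    have hxC1 : x ∉ C1 := fun h' => hxQ (hC1Q h')
    have hxC2 : x ∉ C2 := fun h' => hxQ (hC2Q h')
    have hcin1 : (insert x C1).card = C1.card + 1 := Finset.card_insert_of_notMem hxC1
    have hcin2 : (insert x C2).card = C2.card + 1 := Finset.card_insert_of_notMem hxC2
    have hgood : ∀ C : Finset E, C ⊆ Q → Circ M (insert x C) →
        (insert x C).card < Q.card →
        (∀ A, W ⊆ A → A ⊆ M.S → Disjoint A (insert x C) → 2 ≤ M.lam A) →
        ∃ (M' : BM E) (Q' : Finset E), Minor M' M ∧ GoodP M' W Q' ∧ M'.S = W ∪ Q' := by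
      intro C hCQ hCc hlt hl
      refine ih M (insert x C) (by omega) ⟨hW, Finset.insert_subset hxS (hCQ.trans hQ), ?_, hCc, hl⟩
      rw [Finset.disjoint_insert_right]
      exact ⟨hxW, Finset.disjoint_of_subset_right hCQ hWQ⟩
    by_cases h4 : ∀ A, W ⊆ A → A ⊆ M.S → Disjoint A (insert x C1) → 2 ≤ M.lam A
    · exact hgood C1 hC1Q k1 (by omega) h4
    by_cases h5 : ∀ A, W ⊆ A → A ⊆ M.S → Disjoint A (insert x C2) → 2 ≤ M.lam A
    · exact hgood C2 hC2Q k2 (by omega) h5
    exfalso
    push_neg at h4 h5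
    obtain ⟨A1, a1, a2, a3, a4⟩ := h4
    obtain ⟨A2, b1, b2, b3, b4⟩ := h5
    have hsm := M.lam_submod A1 A2
    have hQdisj : Disjoint (A1 ∩ A2) Q := by
      rw [Finset.disjoint_left]
      intro e he heQ
      rw [← hU] at heQ
      rcases Finset.mem_union.1 heQ with h6 | h6
      · exact Finset.disjoint_left.1 a3 (Finset.mem_inter.1 he).1 (by simp [h6])
      · exact Finset.disjoint_left.1 b3 (Finset.mem_inter.1 he).2 (by simp [h6])
    have h6 := hlam (A1 ∩ A2) (Finset.subset_inter a1 b1) (Finset.inter_subset_left.trans a2) hQdisj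
    have h7 : M.lam (A1 ∪ A2) = 0 := by omega
    have hUS : A1 ∪ A2 ⊆ M.S := Finset.union_subset a2 b2
    have hxU : x ∉ A1 ∪ A2 := by
      simp only [Finset.mem_union, not_or]
      exact ⟨fun h' => Finset.disjoint_left.1 a3 h' (by simp),
        fun h' => Finset.disjoint_left.1 b3 h' (by simp)⟩
    have s1 := circ_separator M (A1 ∪ A2) (insert x C1) hUS h7 k1 ⟨x, by simp, hxU⟩
    have s2 := circ_separator M (A1 ∪ A2) (insert x C2) hUS h7 k2 ⟨x, by simp, hxU⟩
    have h8 := hlam (A1 ∪ A2) (a1.trans Finset.subset_union_left) hUS (by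
      rw [Finset.disjoint_left]
      intro e he heQ
      rw [← hU] at heQ
      rcases Finset.mem_union.1 heQ with h9 | h9
      · exact Finset.disjoint_left.1 s1 he (by simp [h9])
      · exact Finset.disjoint_left.1 s2 he (by simp [h9]))
    omega

theorem good_red (M : BM E) (W Q : Finset E) (h : GoodP M W Q) :
    ∃ (M' : BM E) (Q' : Finset E), Minor M' M ∧ GoodP M' W Q' ∧ M'.S = W ∪ Q' :=
  good_red_aux W _ M Q le_rfl h

end SEY
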